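import Mathlib

/-!
Layers of a connected graph of maximum degree two, and separators built from them.
-/

set_option autoImplicit false

namespace Run7.h50.SX

open SimpleGraph

/-- among any three neighbours of `v` two are equal -/
def DegTwo {V : Type} (G : SimpleGraph V) (v : V) : Prop :=
  ∀ x y z, G.Adj v x → G.Adj v y → G.Adj v z → x = y ∨ y = z ∨ x = z

/-- any two vertices of `K` are joined by a walk inside `K` -/
def Conn {V : Type} (G : SimpleGraph V) (K : Set V) : Prop :=
  ∀ a ∈ K, ∀ b ∈ K, ∃ p : G.Walk a b, ∀ z ∈ p.support, z ∈ K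

section

variable {X : Type} {H : SimpleGraph X}

lemma exists_pred (hc : H.Connected) (p v : X) (j : ℕ) (h : H.dist p v = j + 1) :
    ∃ w, H.Adj v w ∧ H.dist p w = j := by
  obtain ⟨q, hq⟩ := hc.exists_walk_length_eq_dist v p
  have h1 : H.dist v p = j + 1 := by rw [SimpleGraph.dist_comm]; exact h
  rw [h1] at hq
  cases q with
  | nil => simp at hq
  | @cons _ w _ hadj q' =>
    refine ⟨w, hadj, ?_⟩
    rw [SimpleGraph.Walk.length_cons] at hq
    have h2 : H.dist w p ≤ q'.length := SimpleGraph.dist_le q'
    have h3 : H.dist p v ≤ H.dist p w + H.dist w v := hc.dist_triangle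
    have h4 : H.dist w v = 1 := by rw [SimpleGraph.dist_eq_one_iff_adj]; exact hadj.symm
    rw [SimpleGraph.dist_comm] at h2
    omega

lemma layer_card [Finite X] (hc : H.Connected) (hd : ∀ v, DegTwo H v) (p : X) (j : ℕ) :
    {v | H.dist p v = j}.ncard ≤ 2 := by
  induction j with
  | zero =>
    have : {v | H.dist p v = 0} = {p} := by
      ext v
      simp only [Set.mem_ofPred_eq, Set.mem_singleton_iff]
      rw [hc.dist_eq_zero_iff]
      exact eq_comm
    rw [this, Set.ncard_singleton]
    omega
  | succ j ih =>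
    by_cases hj : j = 0
    · subst hj
      by_contra hlt
      push Not at hlt
      rw [Set.two_lt_ncard_iff] at hlt
      obtain ⟨a, b, c, ha, hb, hcc, hab, hac, hbc⟩ := hlt
      simp only [zero_add, Set.mem_ofPred_eq, SimpleGraph.dist_eq_one_iff_adj] at ha hb hcc
      rcases hd p a b c ha hb hcc with h | h | h
      · exact hab h
      · exact hbc h
      · exact hac h
    · refine le_trans ?_ ih
      choose! π hπ1 hπ2 using fun v (h : H.dist p v = j + 1) => exists_pred hc p v j h
      refine Set.ncard_le_ncard_of_injOn π (fun v hv => hπ2 v hv) ?_ (Set.toFinite _)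
      intro v hv v' hv' he
      simp only [Set.mem_ofPred_eq] at hv hv'
      obtain ⟨i, rfl⟩ : ∃ i, j = i + 1 := ⟨j - 1, by omega⟩
      obtain ⟨u, hu1, hu2⟩ := exists_pred hc p (π v) i (hπ2 v hv)
      have h1 := (hπ1 v hv).symm
      have h2 := (hπ1 v' hv').symm
      rw [← he] at h2
      rcases hd (π v) v v' u h1 h2 hu1 with h | h | h
      · exact h
      · exfalso
        rw [h, hu2] at hv'
        omega
      · exfalso
        rw [h, hu2] at hv
        omega

lemma walk_crosses (p : X) (j : ℕ) {a b : X} (w : H.Walk a b) (ha : H.dist p a < j)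
    (hb : j < H.dist p b) : ∃ z ∈ w.support, H.dist p z = j := by
  induction w with
  | nil => omega
  | @cons u v t hadj w ih =>
    rcases hadj.diff_dist_adj (u := p) with h | h | h
    · obtain ⟨z, hz, hz'⟩ := ih (by omega) hb
      exact ⟨z, by simp [hz], hz'⟩
    · by_cases hv : H.dist p v = j
      · exact ⟨v, by simp, hv⟩
      · obtain ⟨z, hz, hz'⟩ := ih (by omega) hb
        exact ⟨z, by simp [hz], hz'⟩
    · obtain ⟨z, hz, hz'⟩ := ih (by omega) hb
      exact ⟨z, by simp [hz], hz'⟩

/-- a connected graph of maximum degree two has at most two vertices whose removal leaves only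
connected sets of at most half the size -/
lemma exists_cut [Finite X] (hc : H.Connected) (hd : ∀ v, DegTwo H v) :
    ∃ L : Set X, L.ncard ≤ 2 ∧ ∀ Q : Set X, Disjoint Q L → Conn H Q →
      2 * Q.ncard ≤ Nat.card X := by
  classical
  obtain ⟨p⟩ := hc.nonempty
  have hex : ∃ j, Nat.card X ≤ 2 * {v | H.dist p v ≤ j}.ncard := by
    obtain ⟨j, hj⟩ := (Set.finite_range (fun v => H.dist p v)).bddAbove
    refine ⟨j, ?_⟩
    have : {v | H.dist p v ≤ j} = Set.univ := by
      ext v
      simp only [Set.mem_ofPred_eq, Set.mem_univ, iff_true]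
      exact hj ⟨v, rfl⟩
    rw [this, Set.ncard_univ]
    omega
  set j := Nat.find hex with hjdef
  have hj : Nat.card X ≤ 2 * {v | H.dist p v ≤ j}.ncard := Nat.find_spec hex
  refine ⟨{v | H.dist p v = j}, layer_card hc hd p j, ?_⟩
  intro Q hQ hconn
  have hne : ∀ z ∈ Q, H.dist p z ≠ j := by
    intro z hz h
    exact Set.disjoint_left.1 hQ hz h
  by_cases h : ∃ a ∈ Q, H.dist p a < j
  · obtain ⟨a, ha, haj⟩ := h
    have hsub : Q ⊆ {v | H.dist p v ≤ j - 1} := by
      intro b hb
      simp only [Set.mem_ofPred_eq]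
      by_contra hlt
      have hb1 : j < H.dist p b := by
        have := hne b hb
        omega
      obtain ⟨w, hw⟩ := hconn a ha b hb
      obtain ⟨z, hz, hz'⟩ := walk_crosses p j w haj hb1
      exact hne z (hw z hz) hz'
    have hlt : ¬ Nat.card X ≤ 2 * {v | H.dist p v ≤ j - 1}.ncard :=
      Nat.find_min hex (by omega)
    have := Set.ncard_le_ncard hsub (Set.toFinite _)
    omega
  · push Not at h
    have hsub : Q ⊆ {v | H.dist p v ≤ j}ᶜ := by
      intro b hb
      simp only [Set.mem_compl_iff, Set.mem_ofPred_eq, not_le]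
      have h1 := h b hb
      have h2 := hne b hb
      omega
    have h1 := Set.ncard_le_ncard hsub (Set.toFinite _)
    have h2 := Set.ncard_add_ncard_compl {v | H.dist p v ≤ j}
    omega

end

end Run7.h50.SX
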