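import Mathlib
import Pool.Agent.Run7.h50.SX.Layers

/-!
Balanced separators of graphs whose vertices of large degree are far apart.
-/

set_option autoImplicit false

namespace Run7.h50.SX

open SimpleGraph

variable {V : Type} {G : SimpleGraph V}

lemma conn_union {K P : Set V} (hK : Conn G K) (hP : Conn G P) (h : (K ∩ P).Nonempty) :
    Conn G (K ∪ P) := by
  obtain ⟨c, hc1, hc2⟩ := h
  have key : ∀ a ∈ K ∪ P, ∃ p : G.Walk a c, ∀ z ∈ p.support, z ∈ K ∪ P := by
    rintro a (ha | ha)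
    · obtain ⟨p, hp⟩ := hK a ha c hc1
      exact ⟨p, fun z hz => Or.inl (hp z hz)⟩
    · obtain ⟨p, hp⟩ := hP a ha c hc2
      exact ⟨p, fun z hz => Or.inr (hp z hz)⟩
  intro a ha b hb
  obtain ⟨p, hp⟩ := key a ha
  obtain ⟨q, hq⟩ := key b hb
  refine ⟨p.append q.reverse, ?_⟩
  intro z hz
  rw [Walk.mem_support_append_iff] at hz
  rcases hz with hz | hz
  · exact hp z hz
  · rw [Walk.support_reverse, List.mem_reverse] at hz
    exact hq z hz

lemma walk_induce {P Q : Set V} (hQP : Q ⊆ P) {a b : V} (w : G.Walk a b)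
    (hw : ∀ z ∈ w.support, z ∈ Q) (ha : a ∈ P) (hb : b ∈ P) :
    ∃ w' : (G.induce P).Walk ⟨a, ha⟩ ⟨b, hb⟩, ∀ z ∈ w'.support, z.1 ∈ Q := by
  induction w with
  | nil => exact ⟨Walk.nil, by simpa using hw⟩
  | @cons u v t hadj w ih =>
    have hv : v ∈ Q := hw v (by simp)
    obtain ⟨w', hw'⟩ := ih (fun z hz => hw z (by simp [hz])) (hQP hv) hb
    refine ⟨Walk.cons (by simpa using hadj) w', ?_⟩
    intro z hz
    rw [Walk.support_cons, List.mem_cons] at hz
    rcases hz with rfl | hz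
    · exact hw _ (by simp)
    · exact hw' z hz

lemma exists_initial {a b : V} (p : G.Walk a b) : ∀ i, i ≤ p.length →
    ∃ q : G.Walk a (p.getVert i), q.length = i := by
  induction p with
  | nil =>
    intro i hi
    simp only [Walk.length_nil, nonpos_iff_eq_zero] at hi
    subst hi
    exact ⟨Walk.nil, rfl⟩
  | @cons u v t hadj w ih =>
    intro i hi
    rcases i with _ | i
    · exact ⟨Walk.nil.copy rfl (by simp), by simp⟩
    · rw [Walk.length_cons] at hi
      obtain ⟨q, hq⟩ := ih i (by omega)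
      refine ⟨(Walk.cons hadj q).copy rfl (by simp), ?_⟩
      simp [hq]

/-- the ball of radius `s / 2` -/
def Ball (G : SimpleGraph V) (s : ℕ) (u : V) : Set V := {w | ∃ p : G.Walk u w, 2 * p.length ≤ s}

lemma ball_card [Finite V] {s : ℕ} {u v : V} (p : G.Walk u v) (hp : p.IsPath)
    (h : s < p.length) : s + 1 ≤ 2 * (Ball G s u).ncard := by
  have h1 : (Set.Iic (s / 2)).ncard ≤ (Ball G s u).ncard := by
    refine Set.ncard_le_ncard_of_injOn (fun i => p.getVert i) ?_ ?_ (Set.toFinite _)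
    · intro i hi
      simp only [Set.mem_Iic] at hi
      obtain ⟨q, hq⟩ := exists_initial p i (by omega)
      exact ⟨q, by omega⟩
    · intro i hi j hj hij
      simp only [Set.mem_Iic] at hi hj
      refine hp.getVert_injOn ?_ ?_ hij
      · show i ≤ p.length
        omega
      · show j ≤ p.length
        omega
  have h2 : (Set.Iic (s / 2)).ncard = s / 2 + 1 := by
    rw [← Finset.coe_Iic, Set.ncard_coe_finset, Nat.card_Iic]
  omega

lemma count_balls [Finite V] {s : ℕ} (B : Set V)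
    (hdist : ∀ u ∈ B, ∀ v ∈ B, u ≠ v → ∀ p : G.Walk u v, s < p.length)
    (hball : ∀ u ∈ B, s + 1 ≤ 2 * (Ball G s u).ncard) :
    B.ncard * (s + 1) ≤ 2 * Nat.card V := by
  classical
  have : Fintype V := Fintype.ofFinite V
  have hdisj : ∀ u ∈ B.toFinset, ∀ v ∈ B.toFinset, u ≠ v →
      Disjoint (Ball G s u).toFinset (Ball G s v).toFinset := by
    intro u hu v hv huv
    rw [Set.mem_toFinset] at hu hv
    rw [Finset.disjoint_left]
    intro w hw hw'
    rw [Set.mem_toFinset] at hw hw'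
    obtain ⟨p, hp⟩ := hw
    obtain ⟨q, hq⟩ := hw'
    have := hdist u hu v hv huv (p.append q.reverse)
    rw [Walk.length_append, Walk.length_reverse] at this
    omega
  have h1 := Finset.card_biUnion hdisj
  have h2 : (B.toFinset.biUnion fun u => (Ball G s u).toFinset).card ≤ Nat.card V := by
    rw [Nat.card_eq_fintype_card]
    exact Finset.card_le_univ _
  have h3 : B.toFinset.card * (s + 1) ≤ ∑ u ∈ B.toFinset, 2 * ((Ball G s u).toFinset).card := by
    rw [← smul_eq_mul]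
    refine Finset.card_nsmul_le_sum _ _ _ ?_
    intro u hu
    rw [Set.mem_toFinset] at hu
    have := hball u hu
    rwa [Set.ncard_eq_toFinset_card'] at this
  rw [← Finset.mul_sum, ← h1] at h3
  rw [Set.ncard_eq_toFinset_card']
  omega

lemma exists_sep [Finite V] (s : ℕ) (B : Set V) (hdeg : ∀ v ∉ B, DegTwo G v)
    (hdist : ∀ u ∈ B, ∀ v ∈ B, u ≠ v → ∀ p : G.Walk u v, s < p.length) :
    ∃ S : Set V, (∀ Q : Set V, Disjoint Q S → Conn G Q → 3 * Q.ncard ≤ 2 * Nat.card V) ∧
      ∃ h : ℕ, S.ncard ≤ h + 2 ∧ h ≤ B.ncard ∧ (2 ≤ h → h * (s + 1) ≤ 2 * Nat.card V) := by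
  classical
  have hmeet : ∀ P Q : Set V, 2 * Nat.card V < 3 * P.ncard → 2 * Nat.card V < 3 * Q.ncard →
      (P ∩ Q).Nonempty := by
    intro P Q hP hQ
    by_contra h
    rw [Set.not_nonempty_iff_eq_empty, ← Set.disjoint_iff_inter_eq_empty] at h
    have h1 := Set.ncard_union_eq h (Set.toFinite _) (Set.toFinite _)
    have h2 : (P ∪ Q).ncard ≤ Nat.card V := by
      rw [← Set.ncard_univ]
      exact Set.ncard_le_ncard (Set.subset_univ _) (Set.toFinite _)
    omega
  by_cases hK0 : ∃ K : Set V, Conn G K ∧ 2 * Nat.card V < 3 * K.ncard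
  swap
  · push Not at hK0
    exact ⟨∅, fun Q _ hQ => hK0 Q hQ, 0, by simp, Nat.zero_le _, by omega⟩
  obtain ⟨K, ⟨hKc, hKb⟩, hKmax⟩ := Set.exists_max_image
    {K : Set V | Conn G K ∧ 2 * Nat.card V < 3 * K.ncard} Set.ncard (Set.toFinite _) hK0
  have hcount : 2 ≤ (B ∩ K).ncard → (B ∩ K).ncard * (s + 1) ≤ 2 * Nat.card V := by
    intro h2
    refine count_balls (B ∩ K) (fun u hu v hv => hdist u hu.1 v hv.1) ?_
    intro u hu
    obtain ⟨v, hv, hvu⟩ : ∃ v ∈ B ∩ K, v ≠ u := by
      by_contra hcon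
      push Not at hcon
      have : B ∩ K ⊆ {u} := fun x hx => hcon x hx
      have := Set.ncard_le_ncard this (Set.toFinite _)
      rw [Set.ncard_singleton] at this
      omega
    obtain ⟨p, -⟩ := hKc u hu.2 v hv.2
    exact ball_card p.bypass p.bypass_isPath (hdist u hu.1 v hv.1 hvu.symm _)
  have hle : (B ∩ K).ncard ≤ B.ncard := Set.ncard_le_ncard Set.inter_subset_left (Set.toFinite _)
  by_cases hP0 : ∃ P : Set V, Disjoint P (B ∩ K) ∧ Conn G P ∧ 2 * Nat.card V < 3 * P.ncard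
  swap
  · push Not at hP0
    exact ⟨B ∩ K, fun Q h hQ => hP0 Q h hQ, (B ∩ K).ncard, by omega, hle, hcount⟩
  obtain ⟨P, ⟨hPd, hPc, hPb⟩, hPmax⟩ := Set.exists_max_image
    {P : Set V | Disjoint P (B ∩ K) ∧ Conn G P ∧ 2 * Nat.card V < 3 * P.ncard} Set.ncard
    (Set.toFinite _) hP0
  have hPK : P ⊆ K := by
    have h1 : Conn G (K ∪ P) := conn_union hKc hPc (hmeet K P hKb hPb)
    have h2 : K ⊆ K ∪ P := Set.subset_union_left
    have h3 := Set.ncard_le_ncard h2 (Set.toFinite _)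
    have h4 := hKmax (K ∪ P) ⟨h1, by omega⟩
    have h5 := Set.eq_of_subset_of_ncard_le h2 h4 (Set.toFinite _)
    rw [h5]
    exact Set.subset_union_right
  have hPB : ∀ v ∈ P, v ∉ B := fun v hv hB => Set.disjoint_left.1 hPd hv ⟨hB, hPK hv⟩
  have hPne : P.Nonempty := by
    rw [← Set.ncard_pos (Set.toFinite _)]
    omega
  have hconn : (G.induce P).Connected := by
    have : Nonempty P := hPne.to_subtype
    refine ⟨?_⟩
    rintro ⟨a, ha⟩ ⟨b, hb⟩
    obtain ⟨w, hw⟩ := hPc a ha b hb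
    obtain ⟨w', -⟩ := walk_induce (Set.Subset.refl P) w hw ha hb
    exact ⟨w'⟩
  have hdeg' : ∀ v, DegTwo (G.induce P) v := by
    rintro ⟨v, hv⟩ ⟨x, hx⟩ ⟨y, hy⟩ ⟨z, hz⟩ h1 h2 h3
    simp only [Subtype.mk.injEq]
    exact hdeg v (hPB v hv) x y z (by simpa using h1) (by simpa using h2) (by simpa using h3)
  obtain ⟨L, hL1, hL2⟩ := exists_cut hconn hdeg'
  refine ⟨(B ∩ K) ∪ Subtype.val '' L, ?_, (B ∩ K).ncard, ?_, hle, hcount⟩
  · intro Q hQ hQc
    by_contra hbig
    push Not at hbig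
    have hQ1 : Disjoint Q (B ∩ K) := hQ.mono_right Set.subset_union_left
    have hQ2 : Disjoint Q (Subtype.val '' L) := hQ.mono_right Set.subset_union_right
    have hQP : Q ⊆ P := by
      have h1 : Conn G (P ∪ Q) := conn_union hPc hQc (hmeet P Q hPb hbig)
      have h2 : P ⊆ P ∪ Q := Set.subset_union_left
      have h3 := Set.ncard_le_ncard h2 (Set.toFinite _)
      have h4 := hPmax (P ∪ Q) ⟨Set.disjoint_union_left.2 ⟨hPd, hQ1⟩, h1, by omega⟩
      have h5 := Set.eq_of_subset_of_ncard_le h2 h4 (Set.toFinite _)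
      rw [h5]
      exact Set.subset_union_right
    have h6 : Disjoint (Subtype.val ⁻¹' Q : Set P) L := by
      rw [Set.disjoint_left]
      intro z hz hzL
      exact Set.disjoint_left.1 hQ2 hz ⟨z, hzL, rfl⟩
    have h7 : Conn (G.induce P) (Subtype.val ⁻¹' Q : Set P) := by
      rintro ⟨a, ha⟩ haQ ⟨b, hb⟩ hbQ
      obtain ⟨w, hw⟩ := hQc a haQ b hbQ
      exact walk_induce hQP w hw ha hb
    have h8 := hL2 _ h6 h7
    have h9 : (Subtype.val ⁻¹' Q : Set P).ncard = Q.ncard := by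
      rw [← Set.ncard_image_of_injective _ Subtype.val_injective, Subtype.image_preimage_coe,
        Set.inter_eq_right.2 hQP]
    have h10 : Nat.card P ≤ Nat.card V := Finite.card_subtype_le _
    omega
  · have h1 := Set.ncard_union_le (B ∩ K) (Subtype.val '' L)
    have h2 := Set.ncard_image_le (f := (Subtype.val : P → V)) (Set.toFinite L)
    omega

end Run7.h50.SX
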