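import Mathlib
import Pool.Agent.Run7.h50.SX.Sep

/-!
Subdivided complete graphs.
-/

set_option autoImplicit false

namespace Run7.h50.SX

open SimpleGraph

/-- branch vertices `i` and vertices `(i, j, k)`, the `k`-th vertex on the way from `i` to `j` -/
abbrev SV (t s : ℕ) : Type := Fin t ⊕ (Fin t × Fin t × Fin s)

/-- the successor relation of the subdivided complete graph -/
def Rel (t s : ℕ) : SV t s → SV t s → Prop
  | .inl i, .inr (i', _, k) => i = i' ∧ k.val = 0
  | .inr (i, j, k), .inr (i', j', k') =>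
      (i = i' ∧ j = j' ∧ k'.val = k.val + 1) ∨
        (i ≠ j ∧ i' = j ∧ j' = i ∧ k.val + 1 = s ∧ k'.val + 1 = s)
  | _, _ => False

/-- the complete graph on `t` vertices with every edge replaced by a path of length `2 s + 1` -/
def SG (t s : ℕ) : SimpleGraph (SV t s) := SimpleGraph.fromRel (Rel t s)

lemma sg_deg (t s : ℕ) (v : SV t s) (hv : v ∉ Set.range (Sum.inl : Fin t → SV t s)) :
    DegTwo (SG t s) v := by
  rcases v with i | ⟨i, j, k⟩
  · exact absurd ⟨i, rfl⟩ hv
  have key : ∃ a b : SV t s, ∀ w, (SG t s).Adj (.inr (i, j, k)) w → w = a ∨ w = b := by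
    refine ⟨if h : k.val = 0 then .inl i else .inr (i, j, ⟨k.val - 1, by omega⟩),
      if h : k.val + 1 < s then .inr (i, j, ⟨k.val + 1, h⟩) else .inr (j, i, k), ?_⟩
    rintro (i' | ⟨i', j', k'⟩) hw
    · simp only [SG, SimpleGraph.fromRel_adj, Rel] at hw
      obtain ⟨-, hw | ⟨h1, h2⟩⟩ := hw
      · exact hw.elim
      · left
        rw [dif_pos h2, h1]
    · simp only [SG, SimpleGraph.fromRel_adj, Rel] at hw
      obtain ⟨-, (⟨h1, h2, h3⟩ | ⟨h1, h2, h3, h4, h5⟩) | (⟨h1, h2, h3⟩ | ⟨h1, h2, h3, h4, h5⟩)⟩ := hw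
      · right
        have h4 : k.val + 1 < s := by have := k'.isLt; omega
        rw [dif_pos h4]
        subst h1 h2
        congr 3
        exact Fin.ext h3
      · right
        rw [dif_neg (by omega)]
        subst h2 h3
        congr 3
        exact Fin.ext (by omega)
      · left
        rw [dif_neg (by omega)]
        subst h1 h2
        congr 3
        exact Fin.ext (by simp only; omega)
      · right
        rw [dif_neg (by omega)]
        subst h2 h3
        congr 3
        exact Fin.ext (by omega)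
  obtain ⟨a, b, hab⟩ := key
  intro x y z hx hy hz
  rcases hab x hx with rfl | rfl <;> rcases hab y hy with rfl | rfl <;>
    rcases hab z hz with rfl | rfl <;> simp

lemma walk_pot {V : Type} {G : SimpleGraph V} (f : V → ℕ)
    (hf : ∀ u v, G.Adj u v → f v ≤ f u + 1) {a b : V} (p : G.Walk a b) :
    f b ≤ f a + p.length := by
  induction p with
  | nil => simp
  | @cons u v t hadj w ih =>
    have := hf u v hadj
    rw [Walk.length_cons]
    omega

/-- the distance from the branch vertex `i`, cut off at `s + 1` -/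
def pot (t s : ℕ) (i : Fin t) : SV t s → ℕ
  | .inl i' => if i' = i then 0 else s + 1
  | .inr (i', _, k) => if i' = i then k.val + 1 else s + 1

lemma pot_adj (t s : ℕ) (i : Fin t) (u v : SV t s) (h : (SG t s).Adj u v) :
    pot t s i v ≤ pot t s i u + 1 := by
  rcases u with a | ⟨a, b, k⟩ <;> rcases v with a' | ⟨a', b', k'⟩
  · simp only [SG, SimpleGraph.fromRel_adj, Rel] at h
    exact (h.2.elim id id).elim
  · simp only [SG, SimpleGraph.fromRel_adj, Rel, or_false] at h
    obtain ⟨-, h1, h2⟩ := h
    subst h1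
    simp only [pot]
    split_ifs <;> omega
  · simp only [SG, SimpleGraph.fromRel_adj, Rel, false_or] at h
    obtain ⟨-, h1, h2⟩ := h
    subst h1
    simp only [pot]
    split_ifs <;> omega
  · simp only [SG, SimpleGraph.fromRel_adj, Rel] at h
    have hk := k.isLt
    have hk' := k'.isLt
    obtain ⟨-, (⟨h1, h2, h3⟩ | ⟨h1, h2, h3, h4, h5⟩) | (⟨h1, h2, h3⟩ | ⟨h1, h2, h3, h4, h5⟩)⟩ := h
    · subst h1
      simp only [pot]
      split_ifs <;> omega
    · simp only [pot]
      split_ifs <;> omega
    · subst h1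
      simp only [pot]
      split_ifs <;> omega
    · simp only [pot]
      split_ifs <;> omega

lemma sg_dist (t s : ℕ) (i j : Fin t) (hij : i ≠ j) (p : (SG t s).Walk (.inl i) (.inl j)) :
    s < p.length := by
  have := walk_pot (pot t s i) (pot_adj t s i) p
  simp only [pot, if_pos, if_neg hij.symm] at this
  omega

/-- the branch set of `i` -/
def BS (t s : ℕ) (i : Fin t) : Set (SV t s) :=
  {v | match v with
    | .inl i' => i' = i
    | .inr (i', _, _) => i' = i}

lemma bs_walk (t s : ℕ) (i j : Fin t) : ∀ (k : ℕ) (hk : k < s),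
    ∃ p : (SG t s).Walk (.inl i) (.inr (i, j, ⟨k, hk⟩)), p.length = k + 1 ∧
      ∀ z ∈ p.support, z ∈ BS t s i := by
  intro k
  induction k with
  | zero =>
    intro hk
    have h : (SG t s).Adj (.inl i) (.inr (i, j, ⟨0, hk⟩)) := by
      simp [SG, SimpleGraph.fromRel_adj, Rel]
    refine ⟨Walk.cons h Walk.nil, by simp, ?_⟩
    intro z hz
    simp only [Walk.support_cons, Walk.support_nil, List.mem_cons, List.not_mem_nil,
      or_false] at hz
    rcases hz with rfl | rfl <;> simp [BS]
  | succ k ih =>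
    intro hk
    obtain ⟨p, hp1, hp2⟩ := ih (by omega)
    have h : (SG t s).Adj (.inr (i, j, ⟨k, by omega⟩)) (.inr (i, j, ⟨k + 1, hk⟩)) := by
      simp [SG, SimpleGraph.fromRel_adj, Rel]
    refine ⟨p.concat h, by simp [hp1], ?_⟩
    intro z hz
    rw [Walk.support_concat, List.mem_append] at hz
    rcases hz with hz | hz
    · exact hp2 z hz
    · simp only [List.mem_cons, List.not_mem_nil, or_false] at hz
      subst hz
      simp [BS]

lemma bs_edge (t s : ℕ) (hs : 1 ≤ s) (i j : Fin t) (hij : i ≠ j) :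
    ∃ a ∈ BS t s i, ∃ b ∈ BS t s j, (SG t s).Adj a b := by
  refine ⟨.inr (i, j, ⟨s - 1, by omega⟩), by simp [BS], .inr (j, i, ⟨s - 1, by omega⟩),
    by simp [BS], ?_⟩
  simp only [SG, SimpleGraph.fromRel_adj, Rel]
  refine ⟨?_, Or.inl (Or.inr ⟨hij, trivial, trivial, by omega, by omega⟩)⟩
  simp only [ne_eq, Sum.inr.injEq, Prod.mk.injEq, not_and]
  intro h
  exact absurd h hij

end Run7.h50.SX
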